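import Pool.Agent.E8helper49.DD.Stm

/-!
# Project DD: pieces REP and OPEN
-/

set_option autoImplicit false

open Set

namespace Pool.Agent.E8helper55.DD

open Pool.Agent.E8helper49.DD

theorem det4_eq (a b c d : Fin 4 → ℝ) : det4 a b c d =
    a 0 * (b 1 * (c 2 * d 3 - c 3 * d 2) - b 2 * (c 1 * d 3 - c 3 * d 1) + b 3 * (c 1 * d 2 - c 2 * d 1))
    - a 1 * (b 0 * (c 2 * d 3 - c 3 * d 2) - b 2 * (c 0 * d 3 - c 3 * d 0) + b 3 * (c 0 * d 2 - c 2 * d 0))
    + a 2 * (b 0 * (c 1 * d 3 - c 3 * d 1) - b 1 * (c 0 * d 3 - c 3 * d 0) + b 3 * (c 0 * d 1 - c 1 * d 0))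
    - a 3 * (b 0 * (c 1 * d 2 - c 2 * d 1) - b 1 * (c 0 * d 2 - c 2 * d 0) + b 2 * (c 0 * d 1 - c 1 * d 0)) := by
  unfold det4
  rw [Matrix.det_succ_row_zero]
  simp [Fin.sum_univ_succ, Matrix.det_fin_three, Fin.succAbove, Matrix.submatrix]
  ring

/-! ### The determinant of three covectors -/

/-- the determinant of the first three coordinates -/
def kap (a b c : Fin 4 → ℝ) : ℝ :=
  a 0 * (b 1 * c 2 - b 2 * c 1) - a 1 * (b 0 * c 2 - b 2 * c 0) + a 2 * (b 0 * c 1 - b 1 * c 0)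

theorem kap_det (a b c : Fin 4 → ℝ) : kap a b c =
    Matrix.det (Matrix.of ![![a 0, a 1, a 2], ![b 0, b 1, b 2], ![c 0, c 1, c 2]]) := by
  rw [Matrix.det_fin_three]
  unfold kap
  simp
  ring

theorem dot_hat (a : Fin 4 → ℝ) (p : Fin 3 → ℝ) :
    a ⬝ᵥ hat p = a 0 * p 0 + a 1 * p 1 + a 2 * p 2 + a 3 := by
  unfold hat
  simp [dotProduct, Fin.sum_univ_succ]
  ring

/-- the functional `det4 a b c` if `a, b, c` vanish at `hat p` -/
theorem det4_kap {a b c : Fin 4 → ℝ} {p : Fin 3 → ℝ} (ha : a ⬝ᵥ hat p = 0) (hb : b ⬝ᵥ hat p = 0)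
    (hc : c ⬝ᵥ hat p = 0) (y : Fin 4 → ℝ) : det4 a b c y = kap a b c * (y ⬝ᵥ hat p) := by
  rw [dot_hat] at ha hb hc ⊢
  have ea : a 3 = -(a 0 * p 0 + a 1 * p 1 + a 2 * p 2) := by linarith
  have eb : b 3 = -(b 0 * p 0 + b 1 * p 1 + b 2 * p 2) := by linarith
  have ec : c 3 = -(c 0 * p 0 + c 1 * p 1 + c 2 * p 2) := by linarith
  rw [det4_eq, ea, eb, ec]
  unfold kap
  ring

/-- independence -/
theorem kap_ne {a b c : Fin 4 → ℝ} {p : Fin 3 → ℝ} (ha : a ⬝ᵥ hat p = 0) (hb : b ⬝ᵥ hat p = 0)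
    (hc : c ⬝ᵥ hat p = 0) {q : Fin 3 → Fin 3 → ℝ}
    (h0 : a ⬝ᵥ hat (q 0) ≠ 0 ∧ b ⬝ᵥ hat (q 0) = 0 ∧ c ⬝ᵥ hat (q 0) = 0)
    (h1 : a ⬝ᵥ hat (q 1) = 0 ∧ b ⬝ᵥ hat (q 1) ≠ 0 ∧ c ⬝ᵥ hat (q 1) = 0)
    (h2 : a ⬝ᵥ hat (q 2) = 0 ∧ b ⬝ᵥ hat (q 2) = 0 ∧ c ⬝ᵥ hat (q 2) ≠ 0) : kap a b c ≠ 0 := by
  intro h
  rw [kap_det, ← Matrix.exists_vecMul_eq_zero_iff] at h
  obtain ⟨l, hl, hl0⟩ := h
  have g0 := congrFun hl0 0
  have g1 := congrFun hl0 1
  have g2 := congrFun hl0 2
  simp [Matrix.vecMul, dotProduct, Fin.sum_univ_succ] at g0 g1 g2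
  have key : ∀ t : Fin 3 → ℝ, l 0 * (a ⬝ᵥ hat t) + l 1 * (b ⬝ᵥ hat t) + l 2 * (c ⬝ᵥ hat t) = 0 := by
    intro t
    rw [dot_hat] at ha hb hc
    rw [dot_hat, dot_hat, dot_hat]
    have ea : a 3 = -(a 0 * p 0 + a 1 * p 1 + a 2 * p 2) := by linarith
    have eb : b 3 = -(b 0 * p 0 + b 1 * p 1 + b 2 * p 2) := by linarith
    have ec : c 3 = -(c 0 * p 0 + c 1 * p 1 + c 2 * p 2) := by linarith
    rw [ea, eb, ec]
    linear_combination (t 0 - p 0) * g0 + (t 1 - p 1) * g1 + (t 2 - p 2) * g2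
  apply hl
  funext r
  fin_cases r
  · have := key (q 0)
    rw [h0.2.1, h0.2.2, mul_zero, mul_zero, add_zero, add_zero] at this
    exact (mul_eq_zero.1 this).resolve_right h0.1
  · have := key (q 1)
    rw [h1.1, h1.2.2, mul_zero, mul_zero, add_zero, zero_add] at this
    exact (mul_eq_zero.1 this).resolve_right h1.2.1
  · have := key (q 2)
    rw [h2.1, h2.2.1, mul_zero, mul_zero, zero_add, zero_add] at this
    exact (mul_eq_zero.1 this).resolve_right h2.2.2

theorem kap_rot (a b c : Fin 4 → ℝ) : kap b c a = kap a b c := by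
  unfold kap
  ring

/-! ### Combinatorics -/

theorem tab1 : ∀ (T : Fin 20) (r : Fin 3), ∃ T', (∃ s, face T' s = face T (r + 1)) ∧
    (∃ s, face T' s = face T (r + 2)) ∧ ∀ s, face T' s ≠ face T r := by decide

theorem tab2 : ∀ T : Fin 20, T ≠ 0 → ∃ (T' : Fin 20) (r s : Fin 3), T' < T ∧
    face T' s = face T (r + 1) ∧ face T' (s + 1) = face T r ∧
    (∀ q, face T q ≠ face T' (s + 2)) ∧ (∀ q, face T' q ≠ face T (r + 2)) := by decide

section rep

variable {P : Set (Fin 3 → ℝ)} {v : Fin 20 → Fin 3 → ℝ} {n : Fin 12 → Fin 3 → ℝ} {b : Fin 12 → ℝ}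

/-- the covectors of a presentation -/
def hh (n : Fin 12 → Fin 3 → ℝ) (b : Fin 12 → ℝ) (i : Fin 12) : Fin 4 → ℝ :=
  ![-(n i 0), -(n i 1), -(n i 2), b i]

theorem hh_dot (n : Fin 12 → Fin 3 → ℝ) (b : Fin 12 → ℝ) (i : Fin 12) (x : Fin 3 → ℝ) :
    hh n b i ⬝ᵥ hat x = b i - n i ⬝ᵥ x := by
  rw [dot_hat]
  unfold hh
  simp [dotProduct, Fin.sum_univ_succ]
  ring

theorem poly_hh (hp : IsPres P v n b) : P = Poly (hh n b) := by
  rw [hp.2.1]
  ext x
  show (∀ i, n i ⬝ᵥ x ≤ b i) ↔ ∀ i, 0 ≤ hh n b i ⬝ᵥ hat x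
  refine forall_congr' fun i => ?_
  rw [hh_dot, sub_nonneg]

theorem vert_mem (hp : IsPres P v n b) (T : Fin 20) : v T ∈ P := by
  rw [hp.1]
  exact subset_convexHull ℝ _ ⟨T, rfl⟩

theorem S_zero (hp : IsPres P v n b) {T : Fin 20} {i : Fin 12} (h : ∃ r, face T r = i) :
    hh n b i ⬝ᵥ hat (v T) = 0 := by
  rw [hh_dot, (hp.2.2 T i).2 h, sub_self]

theorem S_pos (hp : IsPres P v n b) {T : Fin 20} {i : Fin 12} (h : ∀ r, face T r ≠ i) :
    0 < hh n b i ⬝ᵥ hat (v T) := by
  rw [hh_dot, sub_pos]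
  have h1 := vert_mem hp T
  rw [hp.2.1] at h1
  refine lt_of_le_of_ne (h1 i) ?_
  intro h2
  obtain ⟨r, hr⟩ := (hp.2.2 T i).1 h2
  exact h r hr

/-- the factor of the vertex `T` -/
def kp (n : Fin 12 → Fin 3 → ℝ) (b : Fin 12 → ℝ) (T : Fin 20) : ℝ :=
  kap (hh n b (face T 0)) (hh n b (face T 1)) (hh n b (face T 2))

theorem kp_ne (hp : IsPres P v n b) (T : Fin 20) : kp n b T ≠ 0 := by
  have ht := tab1 T
  choose T' h1 h2 h3 using ht
  refine kap_ne (p := v T) (q := fun r => v (T' r)) (S_zero hp ⟨0, rfl⟩) (S_zero hp ⟨1, rfl⟩)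
    (S_zero hp ⟨2, rfl⟩) ?_ ?_ ?_
  · exact ⟨(S_pos hp (h3 0)).ne', S_zero hp (h1 0), S_zero hp (h2 0)⟩
  · exact ⟨S_zero hp (h2 1), (S_pos hp (h3 1)).ne', S_zero hp (h1 1)⟩
  · exact ⟨S_zero hp (h1 2), S_zero hp (h2 2), (S_pos hp (h3 2)).ne'⟩

theorem kp_rot (n : Fin 12 → Fin 3 → ℝ) (b : Fin 12 → ℝ) (T : Fin 20) (r : Fin 3) :
    kap (hh n b (face T r)) (hh n b (face T (r + 1))) (hh n b (face T (r + 2))) = kp n b T := by
  unfold kp
  fin_cases r
  · rfl
  · exact kap_rot _ _ _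
  · exact (kap_rot _ _ _).symm

theorem kp_det (hp : IsPres P v n b) (T : Fin 20) (r : Fin 3) (y : Fin 4 → ℝ) :
    det4 (hh n b (face T r)) (hh n b (face T (r + 1))) (hh n b (face T (r + 2))) y =
      kp n b T * (y ⬝ᵥ hat (v T)) := by
  rw [det4_kap (S_zero hp ⟨r, rfl⟩) (S_zero hp ⟨r + 1, rfl⟩) (S_zero hp ⟨r + 2, rfl⟩), kp_rot]

theorem det4_swap (a b c d : Fin 4 → ℝ) : det4 b a d c = det4 a b c d := by
  rw [det4_eq, det4_eq]
  ring

theorem kp_sign (hp : IsPres P v n b) (T : Fin 20) : 0 < kp n b T ↔ 0 < kp n b 0 := by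
  induction T using Fin.induction with
  | zero => exact Iff.rfl
  | succ T _ => exact aux hp _
where
  aux (hp : IsPres P v n b) (T : Fin 20) : 0 < kp n b T ↔ 0 < kp n b 0 := by
    by_cases h0 : T = 0
    · rw [h0]
    · obtain ⟨T', r, s, hlt, e1, e2, e3, e4⟩ := tab2 T h0
      have ih := aux hp T'
      rw [← ih]
      have d1 := kp_det hp T r (hh n b (face T' (s + 2)))
      have d2 := kp_det hp T' s (hh n b (face T (r + 2)))
      rw [e1, e2, det4_swap, d1] at d2
      have p1 := S_pos hp e3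
      have p2 := S_pos hp e4
      constructor
      · intro h
        have h1 : 0 < kp n b T' * hh n b (face T (r + 2)) ⬝ᵥ hat (v T') := by
          rw [← d2]
          exact mul_pos h p1
        exact (pos_iff_pos_of_mul_pos h1).2 p2
      · intro h
        have h1 : 0 < kp n b T * hh n b (face T' (s + 2)) ⬝ᵥ hat (v T) := by
          rw [d2]
          exact mul_pos h p2
        exact (pos_iff_pos_of_mul_pos h1).2 p1
  termination_by T.val
  decreasing_by exact hlt

end rep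

theorem t_REP : S_REP := by
  rintro P ⟨v, n, b, hp⟩
  rcases lt_or_gt_of_ne (kp_ne hp 0) with h0 | h0
  · -- all negative
    have hneg : ∀ T, kp n b T < 0 := by
      intro T
      refine lt_of_le_of_ne ?_ (kp_ne hp T)
      rw [← not_lt, kp_sign hp T, not_lt]
      exact h0.le
    set D : Matrix (Fin 4) (Fin 4) ℝ := Matrix.diagonal ![-1, 1, 1, 1] with hD
    have hvm : ∀ a : Fin 4 → ℝ, Matrix.vecMul a D = ![-(a 0), a 1, a 2, a 3] := by
      intro a
      funext j
      rw [hD, Matrix.vecMul_diagonal]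
      fin_cases j <;> simp
    have hdet : ∀ a b c d : Fin 4 → ℝ, det4 (Matrix.vecMul a D) (Matrix.vecMul b D)
        (Matrix.vecMul c D) (Matrix.vecMul d D) = -det4 a b c d := by
      intro a b c d
      rw [hvm, hvm, hvm, hvm, det4_eq, det4_eq]
      simp
      ring
    have he4 : Matrix.vecMul e4 D = e4 := by
      rw [hvm]
      unfold e4
      funext j
      fin_cases j <;> simp
    refine ⟨fun i => Matrix.vecMul (hh n b i) D, e4, D, ⟨?_, ?_⟩, ?_, he4, ?_⟩
    · intro T l hl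
      rw [hdet]
      have h1 := kp_det hp T 0 (hh n b l)
      have h2 : det4 (hh n b (face T 0)) (hh n b (face T 1)) (hh n b (face T 2)) (hh n b l) =
          kp n b T * (hh n b l ⬝ᵥ hat (v T)) := h1
      rw [h2]
      have := mul_neg_of_neg_of_pos (hneg T) (S_pos hp hl)
      linarith
    · intro T
      have h1 := kp_det hp T 0 e4
      have h2 : det4 (hh n b (face T 0)) (hh n b (face T 1)) (hh n b (face T 2)) e4 =
          kp n b T * (e4 ⬝ᵥ hat (v T)) := h1
      have h3 : e4 ⬝ᵥ hat (v T) = 1 := by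
        rw [dot_hat]
        unfold e4
        simp
      have h4 := hdet (hh n b (face T 0)) (hh n b (face T 1)) (hh n b (face T 2)) e4
      rw [he4, h2, h3, mul_one] at h4
      rw [h4]
      have := hneg T
      linarith
    · rw [hD, Matrix.det_diagonal]
      simp [Fin.prod_univ_succ]
    · have : (fun i => Matrix.vecMul (Matrix.vecMul (hh n b i) D) D) = hh n b := by
        funext i
        rw [hvm (Matrix.vecMul (hh n b i) D), hvm]
        funext j
        fin_cases j <;> simp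
      rw [this]
      exact poly_hh hp
  · -- all positive
    have hpos : ∀ T, 0 < kp n b T := fun T => (kp_sign hp T).2 h0
    refine ⟨hh n b, e4, 1, ⟨?_, ?_⟩, ?_, Matrix.vecMul_one _, ?_⟩
    · intro T l hl
      have h1 := kp_det hp T 0 (hh n b l)
      have h2 : det4 (hh n b (face T 0)) (hh n b (face T 1)) (hh n b (face T 2)) (hh n b l) =
          kp n b T * (hh n b l ⬝ᵥ hat (v T)) := h1
      rw [h2]
      exact mul_pos (hpos T) (S_pos hp hl)
    · intro T
      have h1 := kp_det hp T 0 e4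
      have h2 : det4 (hh n b (face T 0)) (hh n b (face T 1)) (hh n b (face T 2)) e4 =
          kp n b T * (e4 ⬝ᵥ hat (v T)) := h1
      have h3 : e4 ⬝ᵥ hat (v T) = 1 := by
        rw [dot_hat]
        unfold e4
        simp
      rw [h2, h3, mul_one]
      exact hpos T
    · rw [Matrix.det_one]
      exact one_ne_zero
    · simp only [Matrix.vecMul_one]
      exact poly_hh hp

/-! ### Openness -/

theorem good_open : IsOpen {p : (Fin 12 → Fin 4 → ℝ) × (Fin 4 → ℝ) | Good p.1 p.2} := by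
  unfold Good
  simp only [ofPred_and, ofPred_forall]
  have hc : ∀ a b c d : ((Fin 12 → Fin 4 → ℝ) × (Fin 4 → ℝ)) → Fin 4 → ℝ, Continuous a → Continuous b →
      Continuous c → Continuous d → Continuous fun p => det4 (a p) (b p) (c p) (d p) := by
    intro a b c d ha hb hc hd
    simp only [det4_eq]
    have ha' : ∀ j, Continuous fun p => a p j := fun j => (continuous_apply j).comp ha
    have hb' : ∀ j, Continuous fun p => b p j := fun j => (continuous_apply j).comp hb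
    have hc' : ∀ j, Continuous fun p => c p j := fun j => (continuous_apply j).comp hc
    have hd' : ∀ j, Continuous fun p => d p j := fun j => (continuous_apply j).comp hd
    fun_prop
  have hk : ∀ i, Continuous fun p : (Fin 12 → Fin 4 → ℝ) × (Fin 4 → ℝ) => p.1 i :=
    fun i => (continuous_apply i).comp continuous_fst
  apply IsOpen.inter
  · refine isOpen_iInter_of_finite fun T => isOpen_iInter_of_finite fun l =>
      isOpen_iInter_of_finite fun _ => ?_
    exact isOpen_lt continuous_const (hc _ _ _ _ (hk _) (hk _) (hk _) (hk _))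
  · refine isOpen_iInter_of_finite fun T => ?_
    exact isOpen_lt continuous_const (hc _ _ _ _ (hk _) (hk _) (hk _) continuous_snd)

theorem good_ball {h : Fin 12 → Fin 4 → ℝ} {e : Fin 4 → ℝ} (hg : Good h e) :
    ∃ r > 0, ∀ (k : Fin 12 → Fin 4 → ℝ) (f : Fin 4 → ℝ), (∀ i j, |k i j - h i j| < r) →
      (∀ j, |f j - e j| < r) → Good k f := by
  obtain ⟨r, hr, hb⟩ := Metric.isOpen_iff.1 good_open (h, e) hg
  refine ⟨r, hr, fun k f hk hf => ?_⟩
  have : ((k, f) : (Fin 12 → Fin 4 → ℝ) × (Fin 4 → ℝ)) ∈ Metric.ball (h, e) r := by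
    rw [Metric.mem_ball, Prod.dist_eq, max_lt_iff]
    constructor
    · rw [dist_pi_lt_iff hr]
      intro i
      rw [dist_pi_lt_iff hr]
      intro j
      rw [Real.dist_eq]
      exact hk i j
    · rw [dist_pi_lt_iff hr]
      intro j
      rw [Real.dist_eq]
      exact hf j
  exact hb this

theorem t_OPEN : S_OPEN := by
  intro h e hg
  obtain ⟨r, hr, hb⟩ := good_ball hg
  -- the four covectors
  obtain ⟨η, hη0, hηr, hηs⟩ : ∃ η : ℝ, 0 < η ∧ η < r ∧ η + (e 0 + e 1 + e 2 + e 3) ≠ 0 := by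
    by_cases h1 : r / 2 + (e 0 + e 1 + e 2 + e 3) = 0
    · refine ⟨r / 3, by positivity, by linarith, ?_⟩
      intro h2
      linarith
    · exact ⟨r / 2, by positivity, by linarith, h1⟩
  set f : Fin 4 → Fin 4 → ℝ := fun m j => e j + if j = m then η else 0 with hf
  have hfe : ∀ m j, |f m j - e j| < r := by
    intro m j
    simp only [hf]
    rw [add_sub_cancel_left]
    split_ifs
    · rw [abs_of_pos hη0]; exact hηr
    · rw [abs_zero]; exact hr
  set F : Matrix (Fin 4) (Fin 4) ℝ := Matrix.of f with hF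
  have hFdet : F.det ≠ 0 := by
    have h1 : F.det = det4 (f 0) (f 1) (f 2) (f 3) := by
      unfold det4
      congr 1
      ext i j
      fin_cases i <;> rfl
    have h2 : det4 (f 0) (f 1) (f 2) (f 3) = η ^ 3 * (η + (e 0 + e 1 + e 2 + e 3)) := by
      rw [det4_eq]
      simp [hf]
      ring
    rw [h1, h2]
    exact mul_ne_zero (pow_ne_zero _ hη0.ne') hηs
  have hFu : IsUnit F.det := isUnit_iff_ne_zero.2 hFdet
  set C : ℝ := 1 + ∑ j, ∑ m, |F⁻¹ j m| with hC
  have hC1 : 0 < C := by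
    have : 0 ≤ ∑ j, ∑ m, |F⁻¹ j m| := Finset.sum_nonneg fun j _ => Finset.sum_nonneg fun m _ => abs_nonneg _
    linarith
  set C' : ℝ := 1 + ∑ m, ∑ j, |f m j| with hC'
  have hC'1 : 0 < C' := by
    have : 0 ≤ ∑ m, ∑ j, |f m j| := Finset.sum_nonneg fun j _ => Finset.sum_nonneg fun m _ => abs_nonneg _
    linarith
  have hfC : ∀ m j, |f m j| ≤ C' := by
    intro m j
    have h1 : |f m j| ≤ ∑ j, |f m j| :=
      Finset.single_le_sum (f := fun j => |f m j|) (fun j _ => abs_nonneg _) (Finset.mem_univ j)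
    have h2 : ∑ j, |f m j| ≤ ∑ m, ∑ j, |f m j| :=
      Finset.single_le_sum (f := fun m => ∑ j, |f m j|)
        (fun m _ => Finset.sum_nonneg fun j _ => abs_nonneg _) (Finset.mem_univ m)
    linarith
  refine ⟨r / (8 * C * C'), by positivity, fun h' hh' => ?_⟩
  set δ := r / (8 * C * C') with hδ
  have hδ0 : 0 < δ := by positivity
  set t : Fin 4 → Fin 12 → ℝ := fun m i => Matrix.vecMul (h' i - h i) F⁻¹ m with ht
  have htC : ∀ m i, |t m i| ≤ δ * C := by
    intro m i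
    simp only [ht, Matrix.vecMul, dotProduct]
    refine (Finset.abs_sum_le_sum_abs _ _).trans ?_
    have h1 : ∀ j ∈ (Finset.univ : Finset (Fin 4)), |(h' i - h i) j * F⁻¹ j m| ≤ δ * ∑ m, |F⁻¹ j m| := by
      intro j _
      rw [abs_mul]
      have h2 : |(h' i - h i) j| ≤ δ := (hh' i j).le
      have h3 : |F⁻¹ j m| ≤ ∑ m, |F⁻¹ j m| :=
        Finset.single_le_sum (f := fun m => |F⁻¹ j m|) (fun m _ => abs_nonneg _) (Finset.mem_univ m)
      exact mul_le_mul h2 h3 (abs_nonneg _) hδ0.le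
    refine (Finset.sum_le_sum h1).trans ?_
    rw [← Finset.mul_sum]
    apply mul_le_mul_of_nonneg_left _ hδ0.le
    linarith
  have hsum : ∀ i, ∑ m, t m i • f m = h' i - h i := by
    intro i
    have h1 : Matrix.vecMul (Matrix.vecMul (h' i - h i) F⁻¹) F = h' i - h i := by
      rw [Matrix.vecMul_vecMul, Matrix.nonsing_inv_mul _ hFu, Matrix.vecMul_one]
    conv_rhs => rw [← h1]
    funext j
    simp only [Finset.sum_apply, Pi.smul_apply, smul_eq_mul, Matrix.vecMul, dotProduct, ht, hF,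
      Matrix.of_apply]
  set k : Fin 5 → Fin 12 → Fin 4 → ℝ := fun m i =>
    h i + ∑ m' : Fin 4, if (m' : ℕ) < m then t m' i • f m' else 0 with hk
  have hkb : ∀ m i j, |k m i j - h i j| < r := by
    intro m i j
    simp only [hk, Pi.add_apply, Finset.sum_apply, add_sub_cancel_left]
    refine (Finset.abs_sum_le_sum_abs _ _).trans_lt ?_
    have h1 : ∀ m' ∈ (Finset.univ : Finset (Fin 4)),
        |(if (m' : ℕ) < m then t m' i • f m' else (0 : Fin 4 → ℝ)) j| ≤ δ * C * C' := by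
      intro m' _
      split_ifs
      · rw [Pi.smul_apply, smul_eq_mul, abs_mul]
        exact mul_le_mul (htC m' i) (hfC m' j) (abs_nonneg _) (by positivity)
      · rw [Pi.zero_apply, abs_zero]
        positivity
    refine (Finset.sum_le_sum h1).trans_lt ?_
    rw [Finset.sum_const, Finset.card_univ, Fintype.card_fin, nsmul_eq_mul]
    have h2 : δ * C * C' = r / 8 := by
      rw [hδ]
      field_simp
    rw [h2]
    push_cast
    linarith
  refine ⟨k, f, t, ?_, ?_, ?_⟩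
  · funext i
    simp [hk]
  · funext i
    have h1 : k 4 i = h i + ∑ m, t m i • f m := by
      have h2 : ∀ m' : Fin 4, (if (m' : ℕ) < ((4 : Fin 5) : ℕ) then t m' i • f m' else 0) =
          t m' i • f m' := fun m' => if_pos m'.2
      show h i + ∑ m' : Fin 4, (if (m' : ℕ) < ((4 : Fin 5) : ℕ) then t m' i • f m' else 0) = _
      rw [Finset.sum_congr rfl fun m' _ => h2 m']
    rw [h1, hsum]
    abel
  · intro m
    refine ⟨hb _ _ (hkb _) (hfe m), hb _ _ (hkb _) (hfe m), fun i => ?_⟩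
    simp only [hk, Fin.val_succ, Fin.val_castSucc]
    rw [add_assoc]
    congr 1
    have h1 : ∀ m' : Fin 4, (if (m' : ℕ) < (m : ℕ) + 1 then t m' i • f m' else 0) =
        (if (m' : ℕ) < (m : ℕ) then t m' i • f m' else 0) + (if m' = m then t m' i • f m' else 0) := by
      intro m'
      rcases lt_trichotomy (m' : ℕ) (m : ℕ) with h2 | h2 | h2
      · have h3 : m' ≠ m := fun h4 => by rw [h4] at h2; exact lt_irrefl _ h2
        rw [if_pos (by omega), if_pos h2, if_neg h3, add_zero]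
      · have h3 : m' = m := Fin.ext h2
        subst h3
        simp
      · have h3 : m' ≠ m := fun h4 => by rw [h4] at h2; exact lt_irrefl _ h2
        rw [if_neg (by omega), if_neg (by omega), if_neg h3, add_zero]
    rw [Finset.sum_congr rfl fun m' _ => h1 m', Finset.sum_add_distrib, Finset.sum_ite_eq']
    simp

end Pool.Agent.E8helper55.DD
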